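import Mathlib

/-! Finite extensions `M` of a locally compact nonarchimedean normed field `k`: the ring of integers
`O k M` (unit ball of the spectral norm) is a complete discrete valuation ring with finite residue
field. -/

set_option linter.style.haveILetI false

namespace Pool.Agent.Lib.MP_f80667_ag.LF

open IsLocalRing

section general

open scoped Valued Pointwise

theorem compact_props {K Γ₀ : Type*} [Field K] [LinearOrderedCommGroupWithZero Γ₀] [Valued K Γ₀]
    [(Valued.v : Valuation K Γ₀).RankOne] [CompactSpace 𝒪[K]] :
    IsDiscreteValuationRing 𝒪[K] ∧ Finite 𝓀[K] ∧ IsAdicComplete 𝓂[K] 𝒪[K] := by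
  obtain ⟨h1, h2, h3⟩ := Valued.integer.compactSpace_iff_completeSpace_and_isDiscreteValuationRing_and_finite_residueField.mp
    (inferInstance : CompactSpace 𝒪[K])
  refine ⟨h2, h3, ?_⟩
  haveI := h2
  exact
    { prec' := by
        intro f hf
        let S n : Set 𝒪[K] := f n +ᵥ ((𝓂[K] ^ n : Ideal 𝒪[K]) : Set 𝒪[K])
        have hS n : S (n + 1) ⊆ S n := by
          apply (Set.vadd_set_subset_vadd_set_iff.mpr (Ideal.pow_le_pow_right n.le_succ)).trans
          simpa [S] using (hf n.le_succ).symm
        have h n : IsClosed (S n) := (IsNoetherianRing.isClosed_ideal (𝓂[K] ^ n)).vadd (f n)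
        obtain ⟨L, hL⟩ := (h 0).isCompact.nonempty_iInter_of_sequence_nonempty_isCompact_isClosed S
          hS (by simp [S]) h
        refine ⟨L, fun n ↦ ?_⟩
        obtain ⟨y, hy, rfl⟩ := Set.mem_iInter.mp hL n
        simpa [SModEq.sub_mem] using hy }

end general

section norm

variable (k : Type*) [NontriviallyNormedField k] [IsUltrametricDist k] [ProperSpace k]
  (M : Type*) [Field M] [Algebra k M] [FiniteDimensional k M]

omit [ProperSpace k] in
theorem ultra [CompleteSpace k] : @IsUltrametricDist M (spectralNorm.metricSpace k M).toDist := by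
  letI := spectralNorm.normedField k M
  exact IsUltrametricDist.isUltrametricDist_of_isNonarchimedean_norm
    (isNonarchimedean_spectralNorm (K := k) (L := M))

/-- The ring of integers of a finite extension `M` of `k`. -/
noncomputable def O : ValuationSubring M :=
  letI := spectralNorm.nontriviallyNormedField k M
  haveI : IsUltrametricDist M := ultra k M
  (NormedField.valuation (K := M)).valuationSubring

theorem mem_O {x : M} : x ∈ O k M ↔ spectralNorm k M x ≤ 1 := by
  letI := spectralNorm.nontriviallyNormedField k M
  haveI : IsUltrametricDist M := ultra k M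
  change NormedField.valuation x ≤ 1 ↔ ‖x‖ ≤ 1
  rw [NormedField.valuation_apply, ← NNReal.coe_le_coe]
  rfl

open scoped NormedField Valued in
theorem compact_aux : letI := spectralNorm.nontriviallyNormedField k M
    haveI : IsUltrametricDist M := ultra k M
    CompactSpace 𝒪[M] := by
  letI := spectralNorm.nontriviallyNormedField k M
  haveI : IsUltrametricDist M := ultra k M
  letI : NormedSpace k M := spectralNorm.normedSpace k M
  haveI : ProperSpace M := FiniteDimensional.proper k M
  change CompactSpace 𝒪[M]
  refine isCompact_iff_compactSpace.mp ?_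
  have h : ((𝒪[M] : Subring M) : Set M) = Metric.closedBall 0 1 := by
    ext x
    simp [Valued.integer.mem_iff]
  rw [h]
  exact isCompact_closedBall 0 1

open scoped NormedField in
theorem nontriv_aux : letI := spectralNorm.nontriviallyNormedField k M
    haveI : IsUltrametricDist M := ultra k M
    ∃ x : M, NormedField.valuation x ≠ 0 ∧ NormedField.valuation x ≠ 1 := by
  letI := spectralNorm.nontriviallyNormedField k M
  haveI : IsUltrametricDist M := ultra k M
  obtain ⟨x, hx0, hx1⟩ := NormedField.exists_norm_lt_one M
  refine ⟨x, ?_, ?_⟩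
  · rw [NormedField.valuation_apply]
    intro h
    rw [nnnorm_eq_zero.mp h, norm_zero] at hx0
    exact lt_irrefl _ hx0
  · rw [NormedField.valuation_apply]
    intro h
    have h1 : ‖x‖ = 1 := by
      have := congrArg NNReal.toReal h
      simpa using this
    exact absurd h1 hx1.ne

open scoped NormedField Valued in
theorem dvr_aux : letI := spectralNorm.nontriviallyNormedField k M
    haveI : IsUltrametricDist M := ultra k M
    IsDiscreteValuationRing 𝒪[M] ∧ Finite 𝓀[M] ∧ IsAdicComplete 𝓂[M] 𝒪[M] := by
  letI := spectralNorm.nontriviallyNormedField k M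
  haveI : IsUltrametricDist M := ultra k M
  have hn := nontriv_aux k M
  have h := @compact_props M NNReal _ _ NormedField.toValued
    { hom' := MonoidWithZeroHom.ValueGroup₀.embedding
      strictMono' := MonoidWithZeroHom.ValueGroup₀.embedding_strictMono
      exists_val_nontrivial := hn } (compact_aux k M)
  exact h

instance : IsDiscreteValuationRing (O k M) := (dvr_aux k M).1

instance : Finite (ResidueField (O k M)) := (dvr_aux k M).2.1

instance : IsAdicComplete (maximalIdeal (O k M)) (O k M) := (dvr_aux k M).2.2

/-- An element of `O k M` is a unit when its spectral norm is one. -/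
theorem isUnit_iff (x : O k M) : IsUnit x ↔ spectralNorm k M (x : M) = 1 := by
  letI := spectralNorm.nontriviallyNormedField k M
  haveI : IsUltrametricDist M := ultra k M
  have h1 : ∀ y : M, spectralNorm k M y = ‖y‖ := fun _ => rfl
  have hx : ‖(x : M)‖ ≤ 1 := by
    rw [← h1]
    exact (mem_O k M).mp x.2
  rw [h1]
  constructor
  · intro hu
    obtain ⟨y, hy⟩ := hu.exists_right_inv
    have hy1 : ‖(y : M)‖ ≤ 1 := by
      rw [← h1]
      exact (mem_O k M).mp y.2
    have h2 : ‖(x : M)‖ * ‖(y : M)‖ = 1 := by
      rw [← norm_mul]
      have : (x : M) * (y : M) = 1 := by exact_mod_cast congrArg Subtype.val hy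
      rw [this, norm_one]
    have h0 := norm_nonneg (x : M)
    nlinarith [norm_nonneg (y : M)]
  · intro hu
    have hx0 : (x : M) ≠ 0 := by
      intro h
      rw [h, norm_zero] at hu
      exact zero_ne_one hu
    have hinv : (x : M)⁻¹ ∈ O k M := by
      rw [mem_O, h1, norm_inv, hu, inv_one]
    refine IsUnit.of_mul_eq_one ⟨(x : M)⁻¹, hinv⟩ ?_
    apply Subtype.ext
    exact mul_inv_cancel₀ hx0

/-- The number of elements of the residue field. -/
noncomputable def q : ℕ := Nat.card (ResidueField (O k M))

end norm

section map

variable (k : Type*) [NontriviallyNormedField k] [IsUltrametricDist k] [ProperSpace k]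
  {M N : Type*} [Field M] [Algebra k M] [FiniteDimensional k M]
  [Field N] [Algebra k N] [FiniteDimensional k N] (σ : M →ₐ[k] N)

omit [IsUltrametricDist k] [ProperSpace k] [FiniteDimensional k M] [FiniteDimensional k N] in
theorem spectralNorm_map (x : M) : spectralNorm k N (σ x) = spectralNorm k M x := by
  unfold spectralNorm
  rw [minpoly.algHom_eq σ σ.injective x]

theorem mem_map {x : M} : σ x ∈ O k N ↔ x ∈ O k M := by
  rw [mem_O, mem_O, spectralNorm_map]

/-- The map of rings of integers. -/
noncomputable def mapO : O k M →+* O k N where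
  toFun x := ⟨σ x, (mem_map k σ).mpr x.2⟩
  map_one' := Subtype.ext (map_one σ)
  map_mul' x y := Subtype.ext (map_mul σ (x : M) (y : M))
  map_zero' := Subtype.ext (map_zero σ)
  map_add' x y := Subtype.ext (map_add σ (x : M) (y : M))

instance : IsLocalHom (mapO k σ) where
  map_nonunit x hx := by
    rw [isUnit_iff] at hx ⊢
    rw [← hx]
    exact (spectralNorm_map k σ x).symm

include σ in
theorem q_le : q k M ≤ q k N :=
  Nat.card_le_card_of_injective _ (ResidueField.map (mapO k σ)).injective

end map

end Pool.Agent.Lib.MP_f80667_ag.LF
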