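import Mathlib
import Pool.Agent.Lib.MP_f80667_ag.LF.Basic

/-! The completion `F_v` of a number field at a finite place: its ring of integers is a complete
discrete valuation ring with finite residue field. -/

namespace Pool.Agent.Lib.MP_f80667_ag.LF

open IsLocalRing IsDedekindDomain NumberField HeightOneSpectrum

section dedekind

variable {R : Type*} [CommRing R] [IsDedekindDomain R] (K : Type*) [Field K] [Algebra R K]
  [IsFractionRing R K] (v : HeightOneSpectrum R)

theorem mem_max_iff {x : v.adicCompletionIntegers K} :
    x ∈ maximalIdeal (v.adicCompletionIntegers K) ↔ Valued.v (x : v.adicCompletion K) < 1 := by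
  rw [mem_maximalIdeal, mem_nonunits_iff, adicCompletionIntegers.isUnit_iff_valued_eq_one]
  have hx := x.2
  rw [mem_adicCompletionIntegers] at hx
  exact ⟨fun h => lt_of_le_of_ne hx h, fun h => h.ne⟩

/-- Integers of the completion are close to global integers. -/
theorem exists_close (x : v.adicCompletionIntegers K) :
    ∃ a : R, x - algebraMap R (v.adicCompletionIntegers K) a ∈
      maximalIdeal (v.adicCompletionIntegers K) := by
  -- a global element close to `x`
  have hx := x.2
  rw [mem_adicCompletionIntegers] at hx
  obtain ⟨y, hy⟩ : ∃ y : K, Valued.v ((x : v.adicCompletion K) -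
      algebraMap K (v.adicCompletion K) y) < 1 := by
    have hopen : IsOpen {z : v.adicCompletion K | Valued.v ((x : v.adicCompletion K) - z) < 1} := by
      have h1 : IsOpen {z : v.adicCompletion K | Valued.v z < 1} := by
        simpa only [Valuation.restrict_lt_one_iff] using Valued.isOpen_ball (v.adicCompletion K) 1
      exact h1.preimage (continuous_const.sub continuous_id)
    obtain ⟨z, hz⟩ := (denseRange_algebraMap K v).exists_mem_open hopen
      ⟨(x : v.adicCompletion K), by simp⟩
    exact ⟨z, hz⟩
  have hval : ∀ z : K, Valued.v (algebraMap K (v.adicCompletion K) z) = v.valuation K z :=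
    fun z => valuedAdicCompletion_eq_valuation' v z
  have hy1 : v.valuation K y ≤ 1 := by
    rw [← hval]
    have : algebraMap K (v.adicCompletion K) y =
        (x : v.adicCompletion K) - ((x : v.adicCompletion K) - algebraMap K _ y) := by
      ring
    rw [this]
    exact (Valuation.map_sub _ _ _).trans (max_le hx hy.le)
  obtain ⟨a, ha⟩ := exists_valuation_sub_lt_of_integer v hy1 1
  refine ⟨a, ?_⟩
  rw [mem_max_iff]
  have h3 : ((x - algebraMap R (v.adicCompletionIntegers K) a :
    v.adicCompletionIntegers K) : v.adicCompletion K) =
      ((x : v.adicCompletion K) - algebraMap K _ y) -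
        algebraMap K (v.adicCompletion K) (algebraMap R K a - y) := by
    rw [map_sub]
    have h4 : ((algebraMap R (v.adicCompletionIntegers K) a : v.adicCompletionIntegers K) :
        v.adicCompletion K) = algebraMap K (v.adicCompletion K) (algebraMap R K a) := rfl
    have h5 : ((x - algebraMap R (v.adicCompletionIntegers K) a :
        v.adicCompletionIntegers K) : v.adicCompletion K) = (x : v.adicCompletion K) -
        ((algebraMap R (v.adicCompletionIntegers K) a : v.adicCompletionIntegers K) :
        v.adicCompletion K) := rfl
    rw [h5, h4]
    ring
  rw [h3]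
  refine (Valuation.map_sub _ _ _).trans_lt (max_lt hy ?_)
  rw [hval]
  simpa using ha

/-- The residue field of the completion at a place with finite residue field is finite. -/
theorem finite_residueField [Finite (R ⧸ v.asIdeal)] :
    Finite (ResidueField (v.adicCompletionIntegers K)) := by
  let φ : R →+* ResidueField (v.adicCompletionIntegers K) :=
    (residue _).comp (algebraMap R (v.adicCompletionIntegers K))
  have hφ : ∀ a ∈ v.asIdeal, φ a = 0 := by
    intro a ha
    change residue _ (algebraMap R (v.adicCompletionIntegers K) a) = 0
    rw [residue_eq_zero_iff, mem_max_iff]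
    have h1 : Valued.v (((algebraMap R (v.adicCompletionIntegers K) a :
        v.adicCompletionIntegers K)) : v.adicCompletion K) = v.valuation K (algebraMap R K a) :=
      valuedAdicCompletion_eq_valuation' v (algebraMap R K a)
    rw [h1]
    exact (v.valuation_lt_one_iff_mem a).2 ha
  let ψ : R ⧸ v.asIdeal →+* ResidueField (v.adicCompletionIntegers K) :=
    Ideal.Quotient.lift v.asIdeal φ hφ
  refine Finite.of_surjective ψ ?_
  intro z
  obtain ⟨x, rfl⟩ := residue_surjective z
  obtain ⟨a, ha⟩ := exists_close K v x
  refine ⟨Ideal.Quotient.mk _ a, ?_⟩
  change φ a = _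
  rw [← residue_eq_zero_iff, map_sub, sub_eq_zero] at ha
  exact ha.symm

open scoped Valued in
/-- The ring of integers of the completion is adically complete. -/
theorem adic_props [Finite (R ⧸ v.asIdeal)] :
    IsDiscreteValuationRing (v.adicCompletionIntegers K) ∧
    Finite (ResidueField (v.adicCompletionIntegers K)) ∧
    IsAdicComplete (maximalIdeal (v.adicCompletionIntegers K)) (v.adicCompletionIntegers K) := by
  have hf := finite_residueField K v
  let hr : (Valued.v : Valuation (v.adicCompletion K) _).RankOne :=
    Valuation.IsRankOneDiscrete.rankOne _ (one_lt_two : (1 : NNReal) < 2)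
  have hc : CompactSpace 𝒪[v.adicCompletion K] := by
    rw [Valued.integer.compactSpace_iff_completeSpace_and_isDiscreteValuationRing_and_finite_residueField]
    refine ⟨?_, ?_, hf⟩
    · have := Valued.isClosed_integer (v.adicCompletion K)
      exact this.completeSpace_coe
    · exact (inferInstance : IsDiscreteValuationRing (v.adicCompletionIntegers K))
  exact compact_props

end dedekind

section numberField

variable (F : Type*) [Field F] [NumberField F] (v : HeightOneSpectrum (𝓞 F))

theorem finite_quot : Finite ((𝓞 F) ⧸ v.asIdeal) :=
  v.asIdeal.finiteQuotientOfFreeOfNeBot v.ne_bot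

instance : Finite (ResidueField (v.adicCompletionIntegers F)) := by
  have := finite_quot F v
  exact (adic_props F v).2.1

instance : IsAdicComplete (maximalIdeal (v.adicCompletionIntegers F))
    (v.adicCompletionIntegers F) := by
  have := finite_quot F v
  exact (adic_props F v).2.2

instance : CharZero (v.adicCompletion F) :=
  charZero_of_injective_algebraMap (algebraMap F (v.adicCompletion F)).injective

example : IsDiscreteValuationRing (v.adicCompletionIntegers F) := inferInstance

example : IsFractionRing (v.adicCompletionIntegers F) (v.adicCompletion F) := inferInstance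

end numberField

end Pool.Agent.Lib.MP_f80667_ag.LF
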