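import Pool.Agent.Lib.MP_f80667_ag.LF.Unram

/-! The fraction field of a complete discrete valuation ring with finite residue field is a locally
compact normed field. -/

set_option linter.style.haveILetI false

namespace Pool.Agent.Lib.MP_f80667_ag.LF

open IsLocalRing Polynomial

open scoped WithZero Valued

universe u v

section generic

variable {K Γ₀ : Type*} [Field K] [LinearOrderedCommGroupWithZero Γ₀] [Valued K Γ₀]

/-- The valuation topology on the ring of integers is the adic topology. -/
theorem isAdic_aux [(Valued.v : Valuation K Γ₀).RankOne] [IsDiscreteValuationRing 𝒪[K]] :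
    IsAdic 𝓂[K] := by
  obtain ⟨p, hp⟩ := IsDiscreteValuationRing.exists_irreducible 𝒪[K]
  have hp' := Valuation.integer.v_irreducible_lt_one hp
  have hp1 : ‖p‖ < 1 := Valued.toNormedField.norm_lt_one_iff.mpr hp'
  have hp0 : 0 < ‖p‖ := norm_pos_iff.mpr hp.ne_zero
  have hball : ∀ n : ℕ, ((𝓂[K] ^ n : Ideal 𝒪[K]) : Set 𝒪[K]) =
      Metric.closedBall 0 (‖p‖ ^ n) := by
    intro n
    rw [hp.maximalIdeal_pow_eq_setOfPred_le_v_coe_pow]
    ext
    simp [← norm_pow]
  rw [isAdic_iff]
  refine ⟨fun n => ?_, fun s hs => ?_⟩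
  · rw [hball]
    exact IsUltrametricDist.isOpen_closedBall _ (pow_pos hp0 n).ne'
  · obtain ⟨ε, hε, h⟩ := Metric.mem_nhds_iff.mp hs
    obtain ⟨n, hn⟩ := exists_pow_lt_of_lt_one hε hp1
    refine ⟨n, ?_⟩
    rw [hball]
    exact (Metric.closedBall_subset_ball hn).trans h

theorem compact_of_adic [(Valued.v : Valuation K Γ₀).RankOne] (h1 : IsDiscreteValuationRing 𝒪[K])
    (h2 : Finite 𝓀[K]) (h3 : IsAdicComplete 𝓂[K] 𝒪[K]) : CompactSpace 𝒪[K] := by
  refine Valued.integer.compactSpace_iff_completeSpace_and_isDiscreteValuationRing_and_finite_residueField.mpr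
    ⟨?_, h1, h2⟩
  exact ((isAdic_aux (K := K)).isAdicComplete_iff.mp h3).1

end generic

section abs

variable (R : Type u) [CommRing R] [IsDomain R] [IsDiscreteValuationRing R]
  (k : Type u) [Field k] [Algebra R k] [IsFractionRing R k]

/-- The discrete valuation of `k`. -/
noncomputable def val : Valuation k ℤᵐ⁰ := (IsDiscreteValuationRing.maximalIdeal R).valuation k

/-- The valuation topology. -/
@[instance_reducible]
noncomputable def valued : Valued k ℤᵐ⁰ := Valued.mk' (val R k)

/-- The rank one structure. -/
@[instance_reducible]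
noncomputable def rk : (val R k).RankOne :=
  haveI : (val R k).IsRankOneDiscrete :=
    (inferInstance : ((IsDiscreteValuationRing.maximalIdeal R).valuation k).IsRankOneDiscrete)
  Valuation.IsRankOneDiscrete.rankOne (val R k) (e := 2) (by norm_num)

theorem compact_abs [IsAdicComplete (maximalIdeal R) R] [Finite (ResidueField R)] :
    letI := valued R k
    CompactSpace 𝒪[k] := by
  letI := valued R k
  letI : (Valued.v : Valuation k ℤᵐ⁰).RankOne := rk R k
  let e : R ≃+* 𝒪[k] := IsDiscreteValuationRing.equivValuationSubring (A := R) (K := k)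
  haveI h1 : IsDiscreteValuationRing 𝒪[k] :=
    IsDiscreteValuationRing.RingEquivClass.isDiscreteValuationRing e
  haveI h2 : Finite 𝓀[k] := Finite.of_equiv _ (ResidueField.mapEquiv e).toEquiv
  have h3 : IsAdicComplete 𝓂[k] 𝒪[k] := by
    have h4 : (maximalIdeal R).map e = 𝓂[k] := by
      ext y
      change y ∈ (maximalIdeal R).map e ↔ y ∈ maximalIdeal 𝒪[k]
      rw [Ideal.mem_map_of_equiv e]
      constructor
      · rintro ⟨x, hx, rfl⟩
        rw [mem_maximalIdeal, mem_nonunits_iff] at hx ⊢
        intro h
        exact hx ((MulEquiv.isUnit_map e).mp h)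
      · intro hy
        refine ⟨e.symm y, ?_, e.apply_symm_apply y⟩
        rw [mem_maximalIdeal, mem_nonunits_iff] at hy ⊢
        intro h
        exact hy ((MulEquiv.isUnit_map e.symm).mp h)
    rw [← h4]
    exact (IsAdicComplete.congr_ringEquiv (maximalIdeal R) e).mpr inferInstance
  exact compact_of_adic h1 h2 h3

/-- The field `k` as a normed field. -/
@[instance_reducible]
noncomputable def nnf : NontriviallyNormedField k :=
  letI := valued R k
  letI : (Valued.v : Valuation k ℤᵐ⁰).RankOne := rk R k
  Valued.toNontriviallyNormedField k ℤᵐ⁰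

theorem ultra_abs : letI := nnf R k
    IsUltrametricDist k := by
  letI := valued R k
  letI : (Valued.v : Valuation k ℤᵐ⁰).RankOne := rk R k
  exact (inferInstance : IsUltrametricDist k)

theorem proper_abs [IsAdicComplete (maximalIdeal R) R] [Finite (ResidueField R)] :
    letI := nnf R k
    ProperSpace k := by
  letI := valued R k
  letI : (Valued.v : Valuation k ℤᵐ⁰).RankOne := rk R k
  exact Valued.integer.properSpace_iff_compactSpace_integer.mpr (compact_abs R k)

/-- Extensions of degree `m` with large residue fields. -/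
theorem exists_unram_abs [IsAdicComplete (maximalIdeal R) R] [Finite (ResidueField R)] (m : ℕ)
    (hm : 0 < m) :
    ∃ f : k[X], f.Monic ∧ Irreducible f ∧ f.natDegree = m ∧
      ∀ (M : Type v) [Field M] [Algebra k M] [FiniteDimensional k M] (x : M),
        aeval x f = 0 → ∃ V : ValuationSubring M, IsDiscreteValuationRing V ∧
          Finite (ResidueField V) ∧ IsAdicComplete (maximalIdeal V) V ∧
          2 ^ m ≤ Nat.card (ResidueField V) := by
  letI := nnf R k
  haveI : IsUltrametricDist k := ultra_abs R k
  haveI : ProperSpace k := proper_abs R k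
  obtain ⟨f, h1, h2, h3, h4⟩ := exists_unram k m hm
  refine ⟨f, h1, h2, h3, ?_⟩
  intro M _ _ _ x hx
  exact ⟨O k M, inferInstance, inferInstance, inferInstance, h4 M x hx⟩

end abs

end Pool.Agent.Lib.MP_f80667_ag.LF
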