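import Pool.Agent.Lib.MP_f80667_ag.LF.Unram
import Pool.Agent.Lib.MP_f80667_ag.LF.Adic
import Pool.Agent.Lib.MP_f80667_ag.HB.Main
import Pool.Agent.Lib.MP_f80667_ag.ZC.Good

/-! `ZC.Good` for a locally compact nonarchimedean field. -/

open Polynomial IsDedekindDomain NumberField

namespace Pool.Agent.Lib.MP_f80667_ag.LF

universe u

theorem exists_bound (r : ℕ) : ∃ C : ℕ, ∀ s ≤ r, ∀ (k : Type u) [NontriviallyNormedField k]
    [IsUltrametricDist k] [ProperSpace k] (M : Type u) [Field M] [Algebra k M]
    [FiniteDimensional k M], C ≤ q k M → ZC.Iso M s := by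
  choose C hC using MPf80667.B1.hb.{u, u}
  refine ⟨∑ s ∈ Finset.range (r + 1), C s, ?_⟩
  intro s hs k _ _ _ M _ _ _ hq n hn A
  refine hC s (O k M) M (le_trans ?_ hq) n hn A
  exact Finset.single_le_sum (f := C) (fun _ _ => Nat.zero_le _) (Finset.mem_range.2 (by omega))

theorem good_normed (k : Type u) [NontriviallyNormedField k] [IsUltrametricDist k] [ProperSpace k]
    (Ω : Type u) [Field Ω] [Algebra k Ω] [IsAlgClosure k Ω] (r : ℕ) : ZC.Good k Ω r := by
  intro N hN
  obtain ⟨C, hC⟩ := exists_bound.{u} r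
  obtain ⟨m, hm, hmp⟩ := Nat.exists_infinite_primes (N + C + 1)
  obtain ⟨f, hf, hfi, hfm, hfM⟩ := exists_unram.{u, u} k m hmp.pos
  have : IsAlgClosed Ω := IsAlgClosure.isAlgClosed k
  have hfd : f.degree ≠ 0 := by
    rw [Polynomial.degree_eq_natDegree hf.ne_zero, hfm]
    exact_mod_cast hmp.pos.ne'
  obtain ⟨α, hα⟩ := IsAlgClosed.exists_aeval_eq_zero Ω f hfd
  have hint : IsIntegral k α := ⟨f, hf, by rwa [← aeval_def]⟩
  have hmin : minpoly k α = f := (minpoly.eq_of_irreducible_of_monic hfi hα hf).symm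
  refine ⟨IntermediateField.adjoin k {α}, IntermediateField.adjoin.finiteDimensional hint, ?_, ?_⟩
  · rw [IntermediateField.adjoin.finrank hint, hmin, hfm]
    exact (Nat.Prime.coprime_iff_not_dvd hmp).2
      (fun h => absurd (Nat.le_of_dvd (Nat.pos_of_ne_zero hN) h) (by omega))
  · intro M hM hle s hs
    have hαM : α ∈ M := hle (IntermediateField.mem_adjoin_simple_self k α)
    have h1 : aeval (⟨α, hαM⟩ : M) f = 0 := by
      apply (algebraMap M Ω).injective
      rw [← aeval_algebraMap_apply, map_zero]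
      exact hα
    have h2 := hfM M ⟨α, hαM⟩ h1
    refine hC s hs k M (le_trans ?_ h2)
    have : m < 2 ^ m := Nat.lt_two_pow_self
    omega

open scoped Valued in
theorem good_adic (F : Type) [Field F] [NumberField F] (v : HeightOneSpectrum (𝓞 F)) (r : ℕ) :
    ZC.Good (v.adicCompletion F) (AlgebraicClosure (v.adicCompletion F)) r := by
  have hf : Finite ((𝓞 F) ⧸ v.asIdeal) := finite_quot F v
  let i1 : NontriviallyNormedField (v.adicCompletion F) :=
    Valued.toNontriviallyNormedField (v.adicCompletion F) (WithZero (Multiplicative ℤ))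
  have h1 : @ProperSpace (v.adicCompletion F) i1.toNormedField.toMetricSpace.toPseudoMetricSpace := by
    refine Valued.integer.properSpace_iff_completeSpace_and_isDiscreteValuationRing_integer_and_finite_residueField.mpr ?_
    exact ⟨inferInstance, (inferInstance : IsDiscreteValuationRing (v.adicCompletionIntegers F)),
      finite_residueField F v⟩
  exact @good_normed (v.adicCompletion F) i1 _ h1 (AlgebraicClosure (v.adicCompletion F)) _ _ _ r

end Pool.Agent.Lib.MP_f80667_ag.LF
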