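import Pool.Agent.Lib.MP_f80667_ag.LF.Abs
import Pool.Agent.Lib.MP_f80667_ag.ZC.Good

/-! The property `ZC.Good` of a local field, from the theorem of Heath-Brown on systems of quadratic
forms over local fields with large residue field. -/

namespace Pool.Agent.Lib.MP_f80667_ag.LF

open IsLocalRing Polynomial

universe u

/-- The theorem of Heath-Brown for `s` quadratic forms in `4 * s + 1` variables: there is a constant
`C` such that they have a common nontrivial zero over the fraction field of every complete discrete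
valuation ring of characteristic zero whose residue field is finite with at least `C` elements. -/
def HBst (s : ℕ) : Prop :=
  ∃ C : ℕ, ∀ (R K : Type u) [CommRing R] [IsDomain R] [IsDiscreteValuationRing R]
    [IsAdicComplete (maximalIdeal R) R] [Finite (ResidueField R)] [Field K] [CharZero K]
    [Algebra R K] [IsFractionRing R K], C ≤ Nat.card (ResidueField R) →
    ∀ A : Fin s → Matrix (Fin (4 * s + 1)) (Fin (4 * s + 1)) K,
      ∃ x : Fin (4 * s + 1) → K, x ≠ 0 ∧ ∀ i, dotProduct x ((A i).mulVec x) = 0

/-- A zero of the forms in fewer variables. -/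
theorem iso_of_eq {M : Type u} [Field M] {s : ℕ}
    (h : ∀ A : Fin s → Matrix (Fin (4 * s + 1)) (Fin (4 * s + 1)) M,
      ∃ x : Fin (4 * s + 1) → M, x ≠ 0 ∧ ∀ i, dotProduct x ((A i).mulVec x) = 0) :
    ZC.Iso M s := by
  intro m hm A
  let e : Fin (4 * s + 1) ↪ Fin m := Fin.castLEEmb hm
  obtain ⟨x, hx, h0⟩ := h (fun i => (A i).submatrix e e)
  have hval : ∀ a, Function.extend e x 0 (e a) = x a := fun a => e.injective.extend_apply x 0 a
  have hsum : ∀ F : Fin m → M, ∑ j, Function.extend e x 0 j * F j = ∑ a, x a * F (e a) := by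
    intro F
    symm
    rw [← Finset.sum_subset (Finset.subset_univ (Finset.univ.map e))]
    · rw [Finset.sum_map]
      exact Finset.sum_congr rfl fun a _ => by rw [hval]
    · intro j _ hj
      have hj' : ¬ ∃ a, e a = j := by
        rintro ⟨a, rfl⟩
        exact hj (Finset.mem_map_of_mem e (Finset.mem_univ a))
      rw [Function.extend_apply' _ _ _ hj']
      simp
  refine ⟨Function.extend e x 0, ?_, fun i => ?_⟩
  · intro h1
    apply hx
    funext a
    rw [← hval a, h1]
    rfl
  · have h2 := h0 i
    simp only [dotProduct, Matrix.mulVec, Matrix.submatrix_apply] at h2 ⊢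
    rw [hsum]
    have h3 : ∀ a, ∑ j, A i (e a) j * Function.extend e x 0 j = ∑ b, A i (e a) (e b) * x b := by
      intro a
      have := hsum (fun j => A i (e a) j)
      simp_rw [mul_comm] at this ⊢
      exact this
    simp_rw [h3]
    exact h2

section main

variable {r : ℕ} (R k : Type u) [CommRing R] [IsDomain R]
    [IsDiscreteValuationRing R] [IsAdicComplete (maximalIdeal R) R] [Finite (ResidueField R)]
    [Field k] [CharZero k] [Algebra R k] [IsFractionRing R k]

include R in
/-- For all large `m` there is an irreducible polynomial `f` of degree `m` over `k` such that all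
finite extensions `M` of `k` which contain a root of `f` satisfy `ZC.Iso M s` for `s ≤ r`. -/
theorem exists_poly_of_HB (hB : ∀ s ≤ r, HBst.{u} s) :
    ∃ D : ℕ, ∀ m : ℕ, 0 < m → D ≤ m → ∃ f : k[X], f.Monic ∧ Irreducible f ∧ f.natDegree = m ∧
      ∀ (M : Type u) [Field M] [Algebra k M] [FiniteDimensional k M] (x : M), aeval x f = 0 →
        ∀ s ≤ r, ZC.Iso M s := by
  choose C hC using hB
  obtain ⟨D, hD⟩ : ∃ D : ℕ, ∀ s (hs : s ≤ r), C s hs ≤ D := by
    refine ⟨∑ s ∈ (Finset.range (r + 1)).attach, C s (by
      have := Finset.mem_range.mp s.2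
      omega), ?_⟩
    intro s hs
    exact Finset.single_le_sum (f := fun s : Finset.range (r + 1) => C s.1 (by
      have := Finset.mem_range.mp s.2
      omega)) (fun _ _ => Nat.zero_le _)
      (Finset.mem_attach _ (⟨s, Finset.mem_range.mpr (by omega)⟩ : Finset.range (r + 1)))
  refine ⟨D, fun m hm hDm => ?_⟩
  obtain ⟨f, hf1, hf2, hf3, hf4⟩ := exists_unram_abs R k m hm
  refine ⟨f, hf1, hf2, hf3, fun M _ _ _ x hx s hs => ?_⟩
  obtain ⟨V, hV1, hV2, hV3, hV4⟩ := hf4 M _ hx
  have : CharZero M := charZero_of_injective_algebraMap (algebraMap k M).injective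
  refine iso_of_eq (hC s hs V M (le_trans (hD s hs) ?_))
  calc D ≤ m := hDm
    _ ≤ 2 ^ m := Nat.lt_two_pow_self.le
    _ ≤ _ := hV4

include R in
/-- The local theorem gives `ZC.Good`. -/
theorem good_of_HB (hB : ∀ s ≤ r, HBst.{u} s) (Ω : Type u) [Field Ω] [Algebra k Ω]
    [IsAlgClosed Ω] : ZC.Good k Ω r := by
  intro N hN
  obtain ⟨D, hD⟩ := exists_poly_of_HB R k hB
  obtain ⟨m, hm, hmp⟩ := Nat.exists_infinite_primes (N + D + 1)
  obtain ⟨f, hf1, hf2, hf3, hf4⟩ := hD m hmp.pos (by omega)
  obtain ⟨α, hα⟩ := IsAlgClosed.exists_aeval_eq_zero Ω f (by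
    intro h
    have := natDegree_eq_of_degree_eq_some h
    exact hmp.ne_zero (hf3.symm.trans this))
  have hα1 : IsIntegral k α := ⟨f, hf1, hα⟩
  have hmin : minpoly k α = f := (minpoly.eq_of_irreducible_of_monic hf2 hα hf1).symm
  refine ⟨IntermediateField.adjoin k {α}, IntermediateField.adjoin.finiteDimensional hα1, ?_, ?_⟩
  · rw [IntermediateField.adjoin.finrank hα1, hmin, hf3]
    refine (Nat.Prime.coprime_iff_not_dvd hmp).mpr fun h => ?_
    have := Nat.le_of_dvd (Nat.pos_of_ne_zero hN) h
    omega
  · intro M hM hLM s hs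
    refine hf4 M (⟨α, hLM (IntermediateField.mem_adjoin_simple_self k α)⟩ : M) ?_ s hs
    apply (algebraMap M Ω).injective
    rw [← aeval_algebraMap_apply, map_zero]
    exact hα

end main

end Pool.Agent.Lib.MP_f80667_ag.LF
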