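import Pool.Agent.Lib.MP_f80667_ag.LF.Basic

/-! Existence of extensions of given degree with large residue fields. -/

set_option linter.style.haveILetI false

namespace Pool.Agent.Lib.MP_f80667_ag.LF

open IsLocalRing Polynomial

universe u v

/-- A finite field has irreducible monic polynomials of every positive degree. -/
theorem exists_irred (F : Type u) [Field F] [Finite F] (m : ℕ) (hm : 0 < m) :
    ∃ g : F[X], g.Monic ∧ Irreducible g ∧ g.natDegree = m := by
  obtain ⟨p, hp⟩ := CharP.exists F
  haveI := hp
  haveI : Fact p.Prime := ⟨(CharP.char_is_prime_or_zero F p).resolve_right (by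
    rintro rfl
    haveI : CharZero F := CharP.charP_to_charZero F
    exact not_finite F)⟩
  haveI : NeZero m := ⟨hm.ne'⟩
  let E := FiniteField.Extension F p m
  obtain ⟨a, ha⟩ := Field.exists_primitive_element F E
  have hi : IsIntegral F a := Algebra.IsIntegral.isIntegral a
  refine ⟨minpoly F a, minpoly.monic hi, minpoly.irreducible hi, ?_⟩
  rw [← IntermediateField.adjoin.finrank hi, ha, IntermediateField.finrank_top',
    FiniteField.finrank_extension]

variable (k : Type u) [NontriviallyNormedField k] [IsUltrametricDist k] [ProperSpace k]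

theorem exists_unram (m : ℕ) (hm : 0 < m) :
    ∃ f : k[X], f.Monic ∧ Irreducible f ∧ f.natDegree = m ∧
      ∀ (M : Type v) [Field M] [Algebra k M] [FiniteDimensional k M] (x : M),
        aeval x f = 0 → 2 ^ m ≤ q k M := by
  obtain ⟨g, hg, hgi, hgm⟩ := exists_irred (ResidueField (O k k)) m hm
  have hsurj : Function.Surjective (residue (O k k)) := residue_surjective
  obtain ⟨f0, hf0, hf0d, hf0m⟩ := lifts_and_natDegree_eq_and_monic
    (f := residue (O k k)) (p := g) (by
      rw [lifts_iff_coeff_lifts]
      intro n
      exact hsurj _) hg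
  have hirr0 : Irreducible f0 := Monic.irreducible_of_irreducible_map (residue (O k k)) f0 hf0m
    (by rw [hf0]; exact hgi)
  refine ⟨f0.map (algebraMap (O k k) k), hf0m.map _,
    (Monic.irreducible_iff_irreducible_map_fraction_map hf0m).mp hirr0, ?_, ?_⟩
  · rw [hf0m.natDegree_map, hf0d, hgm]
  · intro M _ _ _ x hx
    let σ : O k k →+* O k M := mapO k (Algebra.ofId k M)
    have hσ : ∀ c : O k k, ((σ c : O k M) : M) = algebraMap k M (c : k) := fun c => rfl
    have hcomp : (algebraMap k M).comp (algebraMap (O k k) k) =
        (algebraMap (O k M) M).comp σ := RingHom.ext fun c => (hσ c).symm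
    have hx1 : eval₂ ((algebraMap (O k M) M).comp σ) x f0 = 0 := by
      rw [← hcomp, ← eval₂_map]
      exact hx
    have hint : IsIntegral (O k M) x := by
      refine ⟨f0.map σ, hf0m.map _, ?_⟩
      rw [eval₂_map]
      exact hx1
    obtain ⟨y, hy⟩ := IsIntegrallyClosed.isIntegral_iff.mp hint
    have hy1 : eval₂ σ y f0 = 0 := by
      have h1 : algebraMap (O k M) M (eval₂ σ y f0) = 0 := by
        rw [hom_eval₂, hy]
        exact hx1
      exact (map_eq_zero_iff _ (IsFractionRing.injective (O k M) M)).mp h1
    let τ : ResidueField (O k k) →+* ResidueField (O k M) := ResidueField.map σ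
    have hy2 : eval₂ τ (residue (O k M) y) g = 0 := by
      rw [← hf0, eval₂_map]
      have h2 : τ.comp (residue (O k k)) = (residue (O k M)).comp σ :=
        ResidueField.map_comp_residue σ
      rw [h2, ← hom_eval₂, hy1, map_zero]
    haveI : Fact (Irreducible g) := ⟨hgi⟩
    let φ : AdjoinRoot g →+* ResidueField (O k M) := AdjoinRoot.lift τ _ hy2
    have hcard : Nat.card (AdjoinRoot g) = Nat.card (ResidueField (O k k)) ^ m := by
      have hfr : Module.finrank (ResidueField (O k k)) (AdjoinRoot g) = m := by
        rw [(AdjoinRoot.powerBasis hg.ne_zero).finrank, AdjoinRoot.powerBasis_dim, hgm]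
      haveI : Module.Finite (ResidueField (O k k)) (AdjoinRoot g) :=
        (AdjoinRoot.powerBasis hg.ne_zero).finite
      rw [Module.natCard_eq_pow_finrank (K := ResidueField (O k k)), hfr]
    have h2 : 2 ≤ Nat.card (ResidueField (O k k)) := Finite.one_lt_card
    calc 2 ^ m ≤ Nat.card (ResidueField (O k k)) ^ m := Nat.pow_le_pow_left h2 m
      _ = Nat.card (AdjoinRoot g) := hcard.symm
      _ ≤ q k M := Nat.card_le_card_of_injective φ φ.injective

end Pool.Agent.Lib.MP_f80667_ag.LF
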